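import Pool.Agent.Q72.EG.Stm

/-! # Project EG (helper72), jobs LOG and BC (helper177) -/

set_option autoImplicit false

namespace Pool.Agent.Q177.EG

open MvPolynomial Filter Topology Metric Pool.Agent.W996.EC Pool.Agent.Q72.EG

/-- **JOB LOG.** -/
theorem log : S_log := by
  intro n c ρ f hρ hf hf0
  have hsc : IsSimplyConnected (ball c ρ) := by
    have : ContractibleSpace (ball c ρ) :=
      (convex_ball c ρ).contractibleSpace ⟨c, mem_ball_self hρ⟩
    show SimplyConnectedSpace (ball c ρ)
    infer_instance
  obtain ⟨L, hL, hE⟩ := Complex.exists_continuousOn_eqOn_exp_comp hsc isOpen_ball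
    hf.continuousOn (by
      rintro ⟨z, hz, hz0⟩
      exact hf0 z hz hz0)
  have hE' : ∀ v ∈ ball c ρ, Complex.exp (L v) = f v := fun v hv => hE hv
  have hcc : c ∈ ball c ρ := mem_ball_self hρ
  have hLd : DifferentiableOn ℂ L (ball c ρ) := by
    intro u hu
    have hu' : ball c ρ ∈ 𝓝 u := isOpen_ball.mem_nhds hu
    have hLc : ContinuousAt L u := hL.continuousAt hu'
    have hfd : DifferentiableAt ℂ f u := hf.differentiableAt hu'
    have hfu := hf0 u hu
    have hev : ∀ᶠ v in 𝓝 u, L v = L u + Complex.log (f v / f u) := by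
      have h1 : ∀ᶠ v in 𝓝 u, ‖L v - L u‖ < 1 := by
        have : Tendsto (fun v => ‖L v - L u‖) (𝓝 u) (𝓝 0) := by
          have h := (hLc.tendsto.sub_const (L u)).norm
          simpa using h
        exact this.eventually (gt_mem_nhds one_pos)
      filter_upwards [h1, hu'] with v hv hvb
      have e : f v / f u = Complex.exp (L v - L u) := by
        rw [Complex.exp_sub, hE' v hvb, hE' u hu]
      have him : |(L v - L u).im| < 1 := (Complex.abs_im_le_norm _).trans_lt hv
      rw [abs_lt] at him
      rw [e, Complex.log_exp (by linarith [him.1, Real.pi_gt_three])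
        (by linarith [him.2, Real.pi_gt_three])]
      ring
    have hd : DifferentiableAt ℂ (fun v => L u + Complex.log (f v / f u)) u := by
      refine (differentiableAt_const _).add ?_
      have hfq : DifferentiableAt ℂ (fun v => f v / f u) u := by
        simp only [div_eq_mul_inv]
        exact hfd.mul_const _
      refine hfq.clog ?_
      rw [div_self hfu]
      exact Complex.one_mem_slitPlane
    exact (hd.congr_of_eventuallyEq hev).differentiableWithinAt
  refine ⟨fun u => L u - L c + Complex.log (f c), ?_, ?_, ?_⟩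
  · exact (hLd.sub_const _).add_const _
  · intro u hu
    have hfc := hf0 c hcc
    rw [Complex.exp_add, Complex.exp_sub, hE' u hu, hE' c hcc, Complex.exp_log hfc]
    field_simp
  · show |(L c - L c + Complex.log (f c)).im| ≤ Real.pi
    rw [sub_self, zero_add, Complex.log_im]
    exact Complex.abs_arg_le_pi _

/-- **JOB BC.** -/
theorem bc : S_bc := by
  intro n c ρ B h hρ hB hd hre him u hu
  have hcb : c ∈ ball c ρ := mem_ball_self hρ
  have hc : ‖h c‖ ≤ B + Real.pi := by
    calc ‖h c‖ ≤ |(h c).re| + |(h c).im| := Complex.norm_le_abs_re_add_abs_im _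
      _ ≤ B + Real.pi := add_le_add (hre c hcb) him
  have hπ := Real.pi_lt_d2
  set g : ℂ → ℂ := fun t => h (c + t • (u - c)) with hg
  have hu' : ‖u - c‖ < ρ / 2 := by rwa [mem_ball, dist_eq_norm] at hu
  have hmap : ∀ t ∈ ball (0 : ℂ) 2, c + t • (u - c) ∈ ball c ρ := by
    intro t ht
    rw [mem_ball_zero_iff] at ht
    rw [mem_ball, dist_eq_norm, add_sub_cancel_left, norm_smul]
    have := norm_nonneg (u - c)
    have := norm_nonneg t
    nlinarith
  have hgd : DifferentiableOn ℂ g (ball 0 2) := by
    refine hd.comp (t := ball c ρ) ?_ hmap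
    exact ((differentiable_id.smul_const (u - c)).const_add c).differentiableOn
  have hgre : Set.MapsTo g (ball 0 2) {z | z.re ≤ B + 1 / 10} := by
    intro t ht
    have := le_of_abs_le (hre _ (hmap t ht))
    show (h (c + t • (u - c))).re ≤ B + 1 / 10
    linarith
  have h1 : (1 : ℂ) ∈ ball (0 : ℂ) 2 := by
    rw [mem_ball_zero_iff, norm_one]
    norm_num
  have key := Complex.borelCaratheodory (by linarith : (0 : ℝ) < B + 1 / 10) hgd hgre two_pos h1
  have e1 : g 1 = h u := by
    show h (c + (1 : ℂ) • (u - c)) = h u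
    rw [one_smul, add_sub_cancel]
  have e0 : g 0 = h c := by
    show h (c + (0 : ℂ) • (u - c)) = h c
    rw [zero_smul, add_zero]
  rw [e1, e0, norm_one] at key
  norm_num at key
  nlinarith

end Pool.Agent.Q177.EG
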